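import Pool.Agent.K6.H18.ZT.Stm

/-!
# Piece ALM: if the kernel is principal, all but at most one of the values are independent
-/

set_option autoImplicit false

namespace Pool.Agent.K6.H18.ZT

open MvPolynomial Module Filter

namespace ALM

variable {I : Type}

/-- a nonzero polynomial with value zero has a variable -/
theorem exists_var (per : MvPolynomial I ℚ →ₐ[ℚ] ℝ) (g : MvPolynomial I ℚ) (hg : g ≠ 0)
    (h0 : per g = 0) : ∃ j, j ∈ g.vars := by
  by_contra hne
  push Not at hne
  have hv : g.vars = ∅ := Finset.eq_empty_of_forall_notMem hne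
  have hc := (MvPolynomial.vars_eq_empty_iff_eq_C (p := g)).1 hv
  have h1 : per (C (g.coeff 0)) = 0 := by rw [← hc]; exact h0
  have h2 : per (C (g.coeff 0)) = algebraMap ℚ ℝ (g.coeff 0) := per.commutes (g.coeff 0)
  rw [h2] at h1
  have h3 : g.coeff 0 = 0 := by
    apply (algebraMap ℚ ℝ).injective
    rw [h1, map_zero]
  apply hg
  rw [hc, h3, map_zero]

end ALM

theorem t_ALM : S_ALM := by
  classical
  intro I per g hg hker
  have h0 : per g = 0 := (hker g).2 dvd_rfl
  obtain ⟨j, hj⟩ := ALM.exists_var per g hg h0
  refine ⟨{j}ᶜ, ?_, ?_⟩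
  · rw [compl_compl]
    exact Set.subsingleton_singleton
  · rw [algebraicIndependent_iff]
    intro p hp
    have hval : per (rename (fun i : ({j}ᶜ : Set I) => (i : I)) p) = 0 := by
      rw [← hp]
      have : (per.comp (rename (fun i : ({j}ᶜ : Set I) => (i : I))) :
          MvPolynomial ({j}ᶜ : Set I) ℚ →ₐ[ℚ] ℝ) =
          aeval (fun i : ({j}ᶜ : Set I) => per (X (i : I))) := by
        apply MvPolynomial.algHom_ext
        intro i
        simp
      exact DFunLike.congr_fun this p
    obtain ⟨k, hk⟩ := (hker _).1 hval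
    by_contra hne
    have hne' : rename (fun i : ({j}ᶜ : Set I) => (i : I)) p ≠ 0 := by
      intro h
      apply hne
      apply rename_injective _ Subtype.val_injective
      rw [map_zero]
      exact h
    have hk0 : k ≠ 0 := by
      rintro rfl
      exact hne' (by rw [hk, mul_zero])
    have hdeg : degreeOf j (rename (fun i : ({j}ᶜ : Set I) => (i : I)) p) = 0 := by
      by_contra hn
      have hmem := mem_vars_iff_degreeOf_ne_zero.2 hn
      have := vars_rename (fun i : ({j}ᶜ : Set I) => (i : I)) p hmem
      rw [Finset.mem_image] at this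
      obtain ⟨a, _, ha⟩ := this
      exact a.2 ha
    rw [hk, degreeOf_mul_eq hg hk0] at hdeg
    have hpos : degreeOf j g ≠ 0 := mem_vars_iff_degreeOf_ne_zero.1 hj
    omega

end Pool.Agent.K6.H18.ZT
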