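import Pool.Agent.K6.H18.ZT.Stm

/-! Piece CNT (helper31). -/

set_option autoImplicit false

namespace Pool.Agent.K6.H18.ZT

namespace CNT

variable {J : Type} (x : J → ℝ)

/-- the family inside the field it generates -/
noncomputable def y (j : J) : IntermediateField.adjoin ℚ (Set.range x) :=
  ⟨x j, IntermediateField.subset_adjoin ℚ _ ⟨j, rfl⟩⟩

theorem isAlg : Algebra.IsAlgebraic (Algebra.adjoin ℚ (Set.range (y x)))
    (IntermediateField.adjoin ℚ (Set.range x)) := by
  constructor
  rintro ⟨z, hz⟩
  refine IntermediateField.adjoin_induction (F := ℚ) (s := Set.range x)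
    (p := fun z hz => IsAlgebraic (Algebra.adjoin ℚ (Set.range (y x)))
      (⟨z, hz⟩ : IntermediateField.adjoin ℚ (Set.range x))) ?_ ?_ ?_ ?_ ?_ hz
  · rintro _ ⟨j, rfl⟩
    exact isAlgebraic_algebraMap
      (⟨y x j, Algebra.subset_adjoin ⟨j, rfl⟩⟩ : Algebra.adjoin ℚ (Set.range (y x)))
  · intro q
    exact isAlgebraic_algebraMap (algebraMap ℚ (Algebra.adjoin ℚ (Set.range (y x))) q)
  · intro a b ha hb h1 h2
    exact h1.add h2
  · intro a ha h1
    exact h1.inv
  · intro a b ha hb h1 h2
    exact h1.mul h2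

theorem indep_iff (S : Set J) : AlgebraicIndependent ℚ (fun i : S => x (i : J)) ↔
    AlgebraicIndependent ℚ (fun i : S => y x (i : J)) :=
  AlgHom.algebraicIndependent_iff (x := fun i : S => y x (i : J))
    (IntermediateField.adjoin ℚ (Set.range x)).val Subtype.val_injective

theorem exists_S [Finite J] : ∃ S : Set J, AlgebraicIndependent ℚ (fun i : S => x (i : J)) ∧
    Algebra.trdeg ℚ (IntermediateField.adjoin ℚ (Set.range x)) = (Nat.card S : Cardinal) := by
  have := isAlg x
  obtain ⟨t, ht, hb⟩ := exists_isTranscendenceBasis_subset (R := ℚ) (Set.range (y x))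
  choose f hf using fun a : t => ht a.2
  have hinj : Function.Injective f := by
    intro a b h
    apply Subtype.ext
    rw [← hf a, ← hf b, h]
  have hy : Function.Injective fun i : Set.range f => y x (i : J) := by
    rintro ⟨_, a, rfl⟩ ⟨_, b, rfl⟩ h
    simp only [hf] at h
    have : a = b := Subtype.ext h
    rw [this]
  refine ⟨Set.range f, ?_, ?_⟩
  · rw [indep_iff]
    have h1 : AlgebraicIndependent ℚ ((↑) : t → IntermediateField.adjoin ℚ (Set.range x)) := hb.1
    refine (algebraicIndependent_equiv' (Equiv.ofInjective f hinj) (f := fun i : Set.range f =>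
      y x (i : J)) ?_).1 h1
    funext a
    show y x (f a) = a
    exact hf a
  · rw [← hb.cardinalMk_eq_trdeg]
    have : Finite t := Finite.of_injective f hinj
    rw [Nat.card_congr (Equiv.ofInjective f hinj).symm, Nat.cast_card]

theorem le_of [Finite J] {S : Set J} (hS : AlgebraicIndependent ℚ (fun i : S => x (i : J))) :
    (Nat.card S : Cardinal) ≤ Algebra.trdeg ℚ (IntermediateField.adjoin ℚ (Set.range x)) := by
  rw [indep_iff] at hS
  have h := hS.cardinalMk_le_trdeg
  rwa [Nat.cast_card]

end CNT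

open CNT in
theorem t_CNT : S_CNT := by
  intro J _ x
  obtain ⟨S, hS, hc⟩ := exists_S x
  have hSJ : Nat.card S ≤ Nat.card J := Nat.card_le_card_of_injective _ Subtype.val_injective
  rw [hc]
  refine ⟨by exact_mod_cast hSJ, ⟨fun h => ?_, fun h => ?_⟩, ⟨fun h => ?_, fun h => ?_⟩⟩
  · have h1 : Nat.card J ≤ Nat.card S := by exact_mod_cast h
    have h2 : S = Set.univ := by
      apply Set.eq_of_subset_of_ncard_le (Set.subset_univ _)
      rw [Set.ncard_univ]
      exact h1
    rw [h2] at hS
    exact (algebraicIndependent_equiv' (Equiv.Set.univ J) (f := x) rfl).1 hS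
  · rw [← hc]
    have h1 : AlgebraicIndependent ℚ (fun i : (Set.univ : Set J) => x (i : J)) :=
      h.comp _ Subtype.val_injective
    have h2 := le_of x h1
    rwa [Nat.card_congr (Equiv.Set.univ J)] at h2
  · refine ⟨S, ?_, hS⟩
    have h1 : Nat.card J ≤ Nat.card S + 1 := by exact_mod_cast h
    have h2 : S.ncard + Sᶜ.ncard = Nat.card J := Set.ncard_add_ncard_compl S
    have h3 : Sᶜ.ncard ≤ 1 := by
      have h4 : S.ncard = Nat.card S := rfl
      omega
    exact Set.ncard_le_one_iff_subsingleton.1 h3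
  · obtain ⟨T, hT, hTi⟩ := h
    have h1 := le_of x hTi
    rw [hc] at h1
    have h1' : Nat.card T ≤ Nat.card S := by exact_mod_cast h1
    have h2 : T.ncard + Tᶜ.ncard = Nat.card J := Set.ncard_add_ncard_compl T
    have h3 : Tᶜ.ncard ≤ 1 := Set.ncard_le_one_iff_subsingleton.2 hT
    have h4 : T.ncard = Nat.card T := rfl
    have h5 : Nat.card J ≤ Nat.card S + 1 := by omega
    exact_mod_cast h5

end Pool.Agent.K6.H18.ZT
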