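import Pool.Agent.K6.H18.ZT.Stm

/-! Piece CON (helper48): one relation of weight `m` generates the kernel. -/

set_option autoImplicit false

namespace Pool.Agent.K6.H18.ZT

open MvPolynomial Module Filter

namespace CON

theorem indep_zero {Z : ℕ → Submodule ℚ ℝ} (h : iSupIndep Z) (s : Finset ℕ) (a : ℕ → ℝ)
    (ha : ∀ n, a n ∈ Z n) (hs : ∑ n ∈ s, a n = 0) : ∀ n ∈ s, a n = 0 := by
  intro i hi
  have h1 : a i = -∑ j ∈ s.erase i, a j := by
    rw [← Finset.add_sum_erase s a hi] at hs
    linarith
  have h2 : a i ∈ ⨆ (j) (_ : j ≠ i), Z j := by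
    rw [h1]
    apply Submodule.neg_mem
    apply Submodule.sum_mem
    intro j hj
    exact Submodule.mem_iSup_of_mem j (Submodule.mem_iSup_of_mem (Finset.ne_of_mem_erase hj) (ha j))
  exact (Submodule.disjoint_def.mp (h i)) _ (ha i) h2

end CON

theorem t_CON : S_CON := by
  classical
  intro I w per hfd h0 m hrel hind
  have hfd' : ∀ n, FiniteDimensional ℚ (Hm w n) := hfd
  let f : (n : ℕ) → (Hm w n) →ₗ[ℚ] ℝ := fun n => per.toLinearMap.domRestrict (Hm w n)
  have rn : ∀ n, finrank ℚ (Z w per n) + finrank ℚ (LinearMap.ker (f n)) = finrank ℚ (Hm w n) := by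
    intro n
    have h1 := LinearMap.finrank_range_add_finrank_ker (f n)
    have h2 : LinearMap.range (f n) = Z w per n := LinearMap.range_domRestrict _ _
    rwa [h2] at h1
  have hker1 : finrank ℚ (LinearMap.ker (f m)) = 1 := by
    have h1 : finrank ℚ (Z w per m) + finrank ℚ (Hm w 0) = finrank ℚ (Hm w m) := hrel.2 0
    have h2 := rn m
    omega
  obtain ⟨g0, hg0⟩ : ∃ x : LinearMap.ker (f m), x ≠ 0 :=
    (Module.finrank_pos_iff_exists_ne_zero (R := ℚ) (M := LinearMap.ker (f m))).mp (by omega)
  obtain ⟨g, hgm, hgz, hgper⟩ : ∃ g : MvPolynomial I ℚ, g ∈ Hm w m ∧ g ≠ 0 ∧ per g = 0 := by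
    refine ⟨((g0 : Hm w m) : MvPolynomial I ℚ), (g0 : Hm w m).2, ?_, ?_⟩
    · intro h
      apply hg0
      apply Subtype.ext
      apply Subtype.ext
      exact h
    · have := g0.2
      rw [LinearMap.mem_ker] at this
      exact this
  -- homogeneous elements of the kernel
  have hhom : ∀ n, ∀ h ∈ Hm w n, per h = 0 → g ∣ h := by
    intro k h hk hper
    by_cases hkm : k < m
    · have h1 := hrel.1 k hkm
      have h2 := rn k
      have h3 : finrank ℚ (LinearMap.ker (f k)) = 0 := by omega
      have h4 : LinearMap.ker (f k) = ⊥ := Submodule.finrank_eq_zero.mp h3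
      have h5 : (⟨h, hk⟩ : Hm w k) ∈ LinearMap.ker (f k) := LinearMap.mem_ker.mpr hper
      rw [h4, Submodule.mem_bot] at h5
      have h6 : h = 0 := congrArg Subtype.val h5
      rw [h6]
      exact dvd_zero g
    · obtain ⟨n, rfl⟩ := Nat.exists_eq_add_of_le (not_lt.mp hkm)
      let M1 : (Hm w n) →ₗ[ℚ] MvPolynomial I ℚ := (LinearMap.mulLeft ℚ g).domRestrict (Hm w n)
      have hM1 : ∀ x : Hm w n, M1 x = g * (x : MvPolynomial I ℚ) := fun x => rfl
      have hinj : Function.Injective M1 := by
        intro x y hxy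
        rw [hM1, hM1] at hxy
        exact Subtype.ext (mul_left_cancel₀ hgz hxy)
      have hle : LinearMap.range M1 ≤ (LinearMap.ker (f (m + n))).map (Hm w (m + n)).subtype := by
        rintro _ ⟨x, rfl⟩
        have hx : g * (x : MvPolynomial I ℚ) ∈ Hm w (m + n) := by
          change g * (x : MvPolynomial I ℚ) ∈ weightedHomogeneousSubmodule ℚ w (m + n)
          rw [mem_weightedHomogeneousSubmodule]
          exact IsWeightedHomogeneous.mul hgm x.2
        refine ⟨⟨g * (x : MvPolynomial I ℚ), hx⟩, ?_, rfl⟩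
        change per (g * (x : MvPolynomial I ℚ)) = 0
        rw [map_mul, hgper, zero_mul]
      have hd1 : finrank ℚ (LinearMap.range M1) = finrank ℚ (Hm w n) :=
        LinearMap.finrank_range_of_inj hinj
      have hd2 : finrank ℚ ((LinearMap.ker (f (m + n))).map (Hm w (m + n)).subtype) =
          finrank ℚ (LinearMap.ker (f (m + n))) := Submodule.finrank_map_subtype_eq _ _
      have hdim : finrank ℚ (LinearMap.range M1) =
          finrank ℚ ((LinearMap.ker (f (m + n))).map (Hm w (m + n)).subtype) := by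
        have h1 := hrel.2 n
        have h2 := rn (m + n)
        omega
      have heq := Submodule.eq_of_le_of_finrank_eq hle hdim
      have hin : h ∈ (LinearMap.ker (f (m + n))).map (Hm w (m + n)).subtype :=
        ⟨⟨h, hk⟩, LinearMap.mem_ker.mpr hper, rfl⟩
      rw [← heq] at hin
      obtain ⟨x, hx⟩ := hin
      exact ⟨(x : MvPolynomial I ℚ), hx.symm⟩
  refine ⟨g, hgz, fun h => ⟨fun hper => ?_, ?_⟩⟩
  · have hsum := sum_weightedHomogeneousComponent w h
    rw [finsum_eq_sum _ (weightedHomogeneousComponent_finsupp h)] at hsum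
    have hz : ∑ n ∈ (weightedHomogeneousComponent_finsupp (w := w) h).toFinset,
        per (weightedHomogeneousComponent w n h) = 0 := by
      rw [← map_sum, hsum, hper]
    have hcomp := CON.indep_zero hind _ (fun n => per (weightedHomogeneousComponent w n h))
      (fun n => ⟨_, weightedHomogeneousComponent_mem w h n, rfl⟩) hz
    rw [← hsum]
    apply Finset.dvd_sum
    intro n hn
    exact hhom n _ (weightedHomogeneousComponent_mem w h n) (hcomp n hn)
  · rintro ⟨k, rfl⟩
    rw [map_mul, hgper, zero_mul]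

end Pool.Agent.K6.H18.ZT
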