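import Pool.Agent.K6.H18.ZT.Stm

/-! Piece DIM of call18z (helper82). -/

set_option autoImplicit false

namespace Pool.Agent.K6.H18.ZT

open MvPolynomial Module Filter

namespace DIM

variable {I : Type}

/-- the component of weight `n` of a polynomial -/
noncomputable def cp (w : I → ℕ) (f : MvPolynomial I ℚ) (n : ℕ) : MvPolynomial I ℚ :=
  letI := MvPolynomial.weightedGradedAlgebra ℚ w
  (DirectSum.decompose (weightedHomogeneousSubmodule ℚ w) f n : MvPolynomial I ℚ)

lemma cp_mem (w : I → ℕ) (f : MvPolynomial I ℚ) (n : ℕ) : cp w f n ∈ Hm w n := by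
  letI := MvPolynomial.weightedGradedAlgebra ℚ w
  exact (DirectSum.decompose (weightedHomogeneousSubmodule ℚ w) f n).2

lemma cp_self {w : I → ℕ} {f : MvPolynomial I ℚ} {n : ℕ} (h : f ∈ Hm w n) : cp w f n = f := by
  letI := MvPolynomial.weightedGradedAlgebra ℚ w
  exact DirectSum.decompose_of_mem_same (weightedHomogeneousSubmodule ℚ w) h

lemma cp_ne {w : I → ℕ} {f : MvPolynomial I ℚ} {n k : ℕ} (h : f ∈ Hm w n) (hk : n ≠ k) :
    cp w f k = 0 := by
  letI := MvPolynomial.weightedGradedAlgebra ℚ w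
  exact DirectSum.decompose_of_mem_ne (weightedHomogeneousSubmodule ℚ w) h hk

lemma cp_sum (w : I → ℕ) (s : Finset ℕ) (f : ℕ → MvPolynomial I ℚ) (n : ℕ) :
    cp w (∑ i ∈ s, f i) n = ∑ i ∈ s, cp w (f i) n := by
  letI := MvPolynomial.weightedGradedAlgebra ℚ w
  unfold cp
  rw [DirectSum.decompose_sum]
  rw [DFinsupp.finset_sum_apply]
  exact AddSubmonoidClass.coe_finset_sum _ _

lemma cp_mul_le {w : I → ℕ} {g : MvPolynomial I ℚ} {m : ℕ} (h : g ∈ Hm w m)
    (k : MvPolynomial I ℚ) {n : ℕ} (hn : m ≤ n) : cp w (g * k) n = g * cp w k (n - m) := by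
  letI := MvPolynomial.weightedGradedAlgebra ℚ w
  exact DirectSum.coe_decompose_mul_of_left_mem_of_le (weightedHomogeneousSubmodule ℚ w) h hn

lemma cp_mul_lt {w : I → ℕ} {g : MvPolynomial I ℚ} {m : ℕ} (h : g ∈ Hm w m)
    (k : MvPolynomial I ℚ) {n : ℕ} (hn : ¬ m ≤ n) : cp w (g * k) n = 0 := by
  letI := MvPolynomial.weightedGradedAlgebra ℚ w
  exact DirectSum.coe_decompose_mul_of_left_mem_of_not_le (weightedHomogeneousSubmodule ℚ w) h hn

end DIM

open DIM in
/-- DIM -/
theorem t_DIM : S_DIM := by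
  intro I w per hfd g m hg0 hg hper
  have hgm : g ∈ Hm w m := hg
  -- the restriction of `per`
  have hrk : ∀ n, finrank ℚ (Z w per n) +
      finrank ℚ (LinearMap.ker (per.toLinearMap ∘ₗ (Hm w n).subtype)) = finrank ℚ (Hm w n) := by
    intro n
    haveI := hfd n
    have h := LinearMap.finrank_range_add_finrank_ker (per.toLinearMap ∘ₗ (Hm w n).subtype)
    rw [LinearMap.range_comp, Submodule.range_subtype] at h
    exact h
  have hker : ∀ n (f : Hm w n), f ∈ LinearMap.ker (per.toLinearMap ∘ₗ (Hm w n).subtype) ↔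
      g ∣ (f : MvPolynomial I ℚ) := by
    intro n f
    rw [LinearMap.mem_ker, ← hper]
    rfl
  refine ⟨⟨?_, ?_⟩, ?_⟩
  · intro n hn
    have h := hrk n
    have hbot : LinearMap.ker (per.toLinearMap ∘ₗ (Hm w n).subtype) = ⊥ := by
      rw [eq_bot_iff]
      intro f hf
      rw [hker] at hf
      obtain ⟨k, hk⟩ := hf
      rw [Submodule.mem_bot]
      apply Subtype.ext
      have h1 := cp_self f.2
      rw [hk, cp_mul_lt hgm k (by omega)] at h1
      rw [hk, ← h1]
      rfl
    rw [hbot, finrank_bot, add_zero] at h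
    exact h
  · intro n
    have h := hrk (m + n)
    haveI := hfd n
    haveI := hfd (m + n)
    let M : Hm w n →ₗ[ℚ] Hm w (m + n) :=
      { toFun := fun f => ⟨g * f, IsWeightedHomogeneous.mul hg f.2⟩
        map_add' := fun a b => Subtype.ext (mul_add g (a : MvPolynomial I ℚ) b)
        map_smul' := fun c a => Subtype.ext (mul_smul_comm c g (a : MvPolynomial I ℚ)) }
    have hinj : Function.Injective M := by
      intro a b hab
      have h1 : g * (a : MvPolynomial I ℚ) = g * b := congrArg Subtype.val hab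
      exact Subtype.ext (mul_left_cancel₀ hg0 h1)
    have hrange : LinearMap.range M =
        LinearMap.ker (per.toLinearMap ∘ₗ (Hm w (m + n)).subtype) := by
      ext f
      rw [hker, LinearMap.mem_range]
      constructor
      · rintro ⟨a, rfl⟩
        exact ⟨a, rfl⟩
      · rintro ⟨k, hk⟩
        refine ⟨⟨cp w k n, cp_mem w k n⟩, ?_⟩
        apply Subtype.ext
        show g * cp w k n = f
        have h1 := cp_self f.2
        rw [hk, cp_mul_le hgm k (by omega)] at h1
        rw [hk, ← h1]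
        congr 2
        omega
    rw [← hrange, LinearMap.finrank_range_of_inj hinj] at h
    exact h
  · classical
    rw [iSupIndep_iff_finsetSum_eq_zero_imp_eq_zero]
    intro s v hv hsum i hi
    have h1 : ∀ j ∈ s, ∃ f ∈ Hm w j, per f = v j := by
      intro j hj
      obtain ⟨f, hf, hfv⟩ := hv j hj
      exact ⟨f, hf, hfv⟩
    choose! f hf hfv using h1
    have h2 : per (∑ j ∈ s, f j) = 0 := by
      rw [map_sum, ← hsum]
      exact Finset.sum_congr rfl fun j hj => hfv j hj
    rw [hper] at h2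
    obtain ⟨k, hk⟩ := h2
    have h3 : cp w (∑ j ∈ s, f j) i = f i := by
      rw [cp_sum, Finset.sum_eq_single i]
      · exact cp_self (hf i hi)
      · intro j hj hji
        exact cp_ne (hf j hj) hji
      · intro h
        exact absurd hi h
    rw [← hfv i hi, hper, ← h3, hk]
    by_cases hmi : m ≤ i
    · rw [cp_mul_le hgm k hmi]
      exact dvd_mul_right _ _
    · rw [cp_mul_lt hgm k hmi]
      exact dvd_zero _

end Pool.Agent.K6.H18.ZT
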