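import Pool.Agent.K6.H18.ZT.Stm

/-!
# Piece FAC: factors of weighted homogeneous polynomials are homogeneous (helper21, for helper18)
-/

set_option autoImplicit false

open MvPolynomial

namespace Pool.Agent.K6.H18.ZT

namespace FAC

variable {I : Type} (w : I → ℕ)

/-- `X i ↦ X i * t ^ (w i)` -/
noncomputable def phi : MvPolynomial I ℚ →ₐ[ℚ] Polynomial (MvPolynomial I ℚ) :=
  aeval fun i => Polynomial.C (X i) * Polynomial.X ^ (w i)

lemma phi_monomial (d : I →₀ ℕ) (c : ℚ) : phi w (monomial d c) =
    Polynomial.C (monomial d c) * Polynomial.X ^ (Finsupp.weight w d) := by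
  unfold phi
  rw [aeval_monomial, monomial_eq, Finsupp.weight_apply]
  have h1 : (d.prod fun i k => (Polynomial.C (X i : MvPolynomial I ℚ) * Polynomial.X ^ (w i)) ^ k) =
      (d.prod fun i k => Polynomial.C ((X i : MvPolynomial I ℚ) ^ k)) *
        Polynomial.X ^ (d.sum fun i k => k • w i) := by
    unfold Finsupp.prod Finsupp.sum
    rw [← Finset.prod_pow_eq_pow_sum, ← Finset.prod_mul_distrib]
    apply Finset.prod_congr rfl
    intro i _
    simp only
    rw [mul_pow, ← Polynomial.C_pow, ← pow_mul, smul_eq_mul, mul_comm (w i)]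
  rw [h1, map_mul, ← mul_assoc]
  congr 2
  unfold Finsupp.prod
  rw [map_prod]

lemma coeff_phi (f : MvPolynomial I ℚ) (m : ℕ) (d : I →₀ ℕ) :
    coeff d ((phi w f).coeff m) = if Finsupp.weight w d = m then coeff d f else 0 := by
  classical
  induction f using MvPolynomial.monomial_add_induction_on with
  | C a =>
    have h := phi_monomial w 0 a
    rw [show (monomial 0 a : MvPolynomial I ℚ) = C a from rfl, map_zero, pow_zero, mul_one] at h
    rw [h, Polynomial.coeff_C]
    by_cases hd : d = 0
    · subst hd
      rw [map_zero]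
      by_cases hm : m = 0
      · rw [if_pos hm, if_pos hm.symm]
      · rw [if_neg hm, if_neg (fun h => hm h.symm), coeff_zero]
    · have e : coeff d (C a : MvPolynomial I ℚ) = 0 := by
        rw [coeff_C, if_neg (fun h => hd h.symm)]
      split_ifs <;> simp [e]
  | monomial_add a b g _ _ ih =>
    rw [map_add, Polynomial.coeff_add, coeff_add, ih, phi_monomial, Polynomial.coeff_C_mul_X_pow,
      coeff_add]
    by_cases hd : a = d
    · subst hd
      by_cases hm : Finsupp.weight w a = m
      · rw [if_pos hm.symm, if_pos hm, if_pos hm]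
      · rw [if_neg (fun h => hm h.symm), if_neg hm, if_neg hm, coeff_zero, zero_add]
    · have e : coeff d (monomial a b : MvPolynomial I ℚ) = 0 := by
        rw [coeff_monomial, if_neg hd]
      split_ifs <;> simp [e]

end FAC

/-- **FAC** -/
theorem t_FAC : S_FAC := by
  intro I w g h n hne hhom
  have hg : g ≠ 0 := left_ne_zero_of_mul hne
  have hh : h ≠ 0 := right_ne_zero_of_mul hne
  have inj : ∀ f : MvPolynomial I ℚ, f ≠ 0 → FAC.phi w f ≠ 0 := by
    intro f hf h0
    apply hf
    ext d
    have h1 := FAC.coeff_phi w f (Finsupp.weight w d) d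
    rw [if_pos rfl, h0, Polynomial.coeff_zero, coeff_zero] at h1
    rw [← h1, coeff_zero]
  have hG := inj g hg
  have hH := inj h hh
  have hGH : FAC.phi w g * FAC.phi w h ≠ 0 := mul_ne_zero hG hH
  have hco : ∀ m, (FAC.phi w g * FAC.phi w h).coeff m ≠ 0 → m = n := by
    intro m hm
    rw [← map_mul] at hm
    by_contra hne'
    apply hm
    ext d
    rw [FAC.coeff_phi, coeff_zero]
    split_ifs with h1
    · by_contra h2
      exact hne' (h1.symm.trans (hhom h2))
    · rfl
  have h1 : (FAC.phi w g * FAC.phi w h).natDegree = n :=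
    hco _ (Polynomial.leadingCoeff_ne_zero.2 hGH)
  have h2 : (FAC.phi w g * FAC.phi w h).natTrailingDegree = n :=
    hco _ (Polynomial.trailingCoeff_nonzero_iff_nonzero.2 hGH)
  rw [Polynomial.natDegree_mul hG hH] at h1
  rw [Polynomial.natTrailingDegree_mul hG hH] at h2
  have h3 := (FAC.phi w g).natTrailingDegree_le_natDegree
  have h4 := (FAC.phi w h).natTrailingDegree_le_natDegree
  refine ⟨(FAC.phi w g).natDegree, ?_⟩
  intro d hd
  have h5 : (FAC.phi w g).coeff (Finsupp.weight w d) ≠ 0 := by
    intro h0
    have h6 := FAC.coeff_phi w g (Finsupp.weight w d) d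
    rw [if_pos rfl, h0, coeff_zero] at h6
    exact hd h6.symm
  have h6 := Polynomial.le_natDegree_of_ne_zero h5
  have h7 := Polynomial.natTrailingDegree_le_of_ne_zero h5
  omega

end Pool.Agent.K6.H18.ZT
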