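import Pool.Agent.K6.H18.ZT.Stm

/-! # FD: the spaces of homogeneous polynomials are finite-dimensional (piece by helper3) -/

set_option autoImplicit false

namespace Pool.Agent.K6.H18.ZT

open MvPolynomial Module Filter

namespace FD

variable {I : Type}

theorem finite_weight (w : I → ℕ) (hw : Fin' w) (n : ℕ) :
    {d : I →₀ ℕ | Finsupp.weight w d = n}.Finite := by
  classical
  have hfin : Finite {i : I // w i ≤ n} := hw.2 n
  have hS : {i : I | w i ≤ n}.Finite := Set.finite_coe_iff.1 hfin
  refine (Set.finite_Iic (Finsupp.onFinset hS.toFinset (fun i => if w i ≤ n then n else 0)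
    (fun i hi => ?_))).subset ?_
  · rw [Set.Finite.mem_toFinset]
    by_contra h
    exact hi (if_neg h)
  · intro d hd
    rw [Set.mem_Iic]
    intro i
    rw [Finsupp.onFinset_apply]
    have hd' : Finsupp.weight w d = n := hd
    split_ifs with h
    · rw [← hd']
      exact Finsupp.le_weight w (by have := hw.1 i; omega) d
    · by_contra h0
      have h1 : w i ≤ Finsupp.weight w d := Finsupp.le_weight_of_ne_zero' w (by omega)
      omega

theorem finite_dim (w : I → ℕ) (hw : Fin' w) (n : ℕ) : FiniteDimensional ℚ (Hm w n) := by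
  have h := (finite_weight w hw n).to_subtype
  unfold Hm
  rw [weightedHomogeneousSubmodule_eq_finsupp_supported]
  exact Module.Finite.of_basis (basisRestrictSupport ℚ {d | Finsupp.weight w d = n})

theorem weight_zero (w : I → ℕ) (hw : Fin' w) :
    {d : I →₀ ℕ | Finsupp.weight w d = 0} = {0} := by
  ext d
  rw [Set.mem_singleton_iff]
  constructor
  · intro hd
    have hd' : Finsupp.weight w d = 0 := hd
    ext i
    have h1 := Finsupp.le_weight w (show w i ≠ 0 by have := hw.1 i; omega) d
    rw [hd'] at h1
    simpa using h1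
  · rintro rfl
    exact map_zero _

theorem rank_zero (w : I → ℕ) (hw : Fin' w) : finrank ℚ (Hm w 0) = 1 := by
  unfold Hm
  rw [weightedHomogeneousSubmodule_eq_finsupp_supported]
  have h := Module.finrank_eq_nat_card_basis
    (basisRestrictSupport ℚ {d : I →₀ ℕ | Finsupp.weight w d = 0})
  refine h.trans ?_
  rw [weight_zero w hw]
  simp

end FD

theorem t_FD : S_FD := fun _ w hw => ⟨fun n => FD.finite_dim w hw n, FD.rank_zero w hw⟩

end Pool.Agent.K6.H18.ZT
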