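import Pool.Agent.K6.H18.ZT.Stm

/-! Piece GEN (helper4). -/

set_option autoImplicit false

namespace Pool.Agent.K6.H18.ZT

open MvPolynomial Module Filter

theorem t_GEN : S_GEN := by
  intro I w per hw n
  apply le_antisymm
  · rw [IntermediateField.adjoin_le_iff]
    rintro x ⟨m, hm, h, hh, rfl⟩
    have hh' : IsWeightedHomogeneous w h m := hh
    have h1 : per h = eval₂ (algebraMap ℚ ℝ) (fun i => per (X i)) h := by
      have h2 := aeval_unique per
      conv_lhs => rw [h2]
      rfl
    change per h ∈ fld w per n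
    rw [h1, eval₂_eq]
    refine sum_mem fun d hd => mul_mem (IntermediateField.algebraMap_mem _ _) ?_
    refine prod_mem fun i hi => pow_mem ?_ _
    have h3 : w i ≤ Finsupp.weight w d :=
      Finsupp.le_weight_of_ne_zero' w (Finsupp.mem_support_iff.1 hi)
    rw [hh' (mem_support_iff.1 hd)] at h3
    exact IntermediateField.subset_adjoin ℚ _ ⟨⟨i, h3.trans hm⟩, rfl⟩
  · unfold fld
    rw [IntermediateField.adjoin_le_iff]
    rintro _ ⟨⟨i, hi⟩, rfl⟩
    refine IntermediateField.subset_adjoin ℚ _ ⟨w i, hi, X i, ?_, rfl⟩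
    exact isWeightedHomogeneous_X ℚ w i

end Pool.Agent.K6.H18.ZT
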