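import Pool.Agent.K6.H18.ZT.Stm

/-!
# Piece GLO (by helper7): from the finite levels to all variables
-/

set_option autoImplicit false

namespace Pool.Agent.K6.H18.ZT

open MvPolynomial Module Filter

namespace GLO

variable {I : Type}

/-- the elements of a set are algebraically independent -/
def AI (x : I → ℝ) (T : Set I) : Prop := AlgebraicIndependent ℚ (fun i : T => x (i : I))

theorem AI.mono {x : I → ℝ} {S T : Set I} (h : AI x T) (hST : S ⊆ T) : AI x S :=
  AlgebraicIndependent.comp h (Set.inclusion hST) (Set.inclusion_injective hST)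

theorem ai_of_levels {w : I → ℕ} {x : I → ℝ} {S : Set I}
    (h : ∃ᶠ n in atTop, AI x ({i | w i ≤ n} ∩ S)) : AI x S := by
  refine algebraicIndependent_of_finite_type fun t ht => ?_
  obtain ⟨N, hN⟩ : ∃ N, ∀ i ∈ t, w (i : I) ≤ N := by
    obtain ⟨N, hN⟩ := (ht.image fun i : S => w (i : I)).bddAbove
    exact ⟨N, fun i hi => hN ⟨i, hi, rfl⟩⟩
  obtain ⟨n, hn, hAI⟩ := (frequently_atTop.1 h) N
  exact AlgebraicIndependent.comp hAI
    (fun i : t => (⟨(i.1 : I), (hN i.1 i.2).trans hn, i.1.2⟩ : ({i | w i ≤ n} ∩ S : Set I)))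
    (fun i j hij => by
      apply Subtype.ext
      apply Subtype.ext
      exact congrArg (fun z : ({i | w i ≤ n} ∩ S : Set I) => (z : I)) hij)

theorem ai_univ {x : I → ℝ} (h : AI x Set.univ) : AlgebraicIndependent ℚ x :=
  AlgebraicIndependent.comp h (fun i => ⟨i, Set.mem_univ i⟩) fun i j hij =>
    congrArg (fun z : (Set.univ : Set I) => (z : I)) hij

end GLO

open GLO in
theorem t_GLO : S_GLO := by
  intro I w x hfin
  have hone : (∃ᶠ n in atTop, AlgebraicIndependent ℚ (fun i : {i : I // w i ≤ n} => x (i : I))) →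
      AlgebraicIndependent ℚ x := by
    intro h
    apply ai_univ
    apply ai_of_levels (w := w)
    refine h.mono fun n hn => ?_
    rw [Set.inter_univ]
    exact hn
  refine ⟨hone, fun h => ?_, fun h n => ?_, fun h n => ?_⟩
  · by_cases hx : AlgebraicIndependent ℚ x
    · refine ⟨Set.univ, by simp, ?_⟩
      exact AlgebraicIndependent.comp hx (fun i : (Set.univ : Set I) => (i : I))
        Subtype.val_injective
    · -- some level is dependent
      obtain ⟨N, hN⟩ : ∃ N, ¬ AI x {i | w i ≤ N} := by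
        by_contra hcon
        push Not at hcon
        exact hx (hone (Frequently.of_forall fun n => hcon n))
      have hLfin : ({i | w i ≤ N} : Set I).Finite := Set.finite_coe_iff.1 (hfin N)
      have key : ∃ᶠ n in atTop, ∃ j ∈ {i | w i ≤ N}, AI x ({i | w i ≤ n} ∩ {j}ᶜ) := by
        refine (h.and_eventually (eventually_ge_atTop N)).mono ?_
        rintro n ⟨⟨S, hS, hSI⟩, hn⟩
        -- the set `S` as a subset of `I`
        obtain ⟨S', hS'⟩ : ∃ S' : Set I, S' = {i | ∃ h : w i ≤ n, (⟨i, h⟩ : {i : I // w i ≤ n}) ∈ S} :=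
          ⟨_, rfl⟩
        have hAI : AI x S' := by
          subst hS'
          exact AlgebraicIndependent.comp hSI
            (fun i : {i | ∃ h : w i ≤ n, (⟨i, h⟩ : {i : I // w i ≤ n}) ∈ S} =>
              (⟨⟨i.1, i.2.1⟩, i.2.2⟩ : S)) (fun i j hij => by
                apply Subtype.ext
                exact congrArg (fun z : S => ((z : {i : I // w i ≤ n}) : I)) hij)
        obtain ⟨j, hjN, hjS⟩ : ∃ j ∈ {i | w i ≤ N}, j ∉ S' := by
          by_contra hcon
          push Not at hcon
          exact hN (hAI.mono hcon)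
        refine ⟨j, hjN, hAI.mono ?_⟩
        rintro i ⟨hi, hij⟩
        by_contra hiS
        apply hij
        have hjn : w j ≤ n := le_trans hjN hn
        have h1 : (⟨i, hi⟩ : {i : I // w i ≤ n}) ∈ Sᶜ := fun h => hiS (by rw [hS']; exact ⟨hi, h⟩)
        have h2 : (⟨j, hjn⟩ : {i : I // w i ≤ n}) ∈ Sᶜ := fun h => hjS (by rw [hS']; exact ⟨hjn, h⟩)
        exact congrArg Subtype.val (hS h1 h2)
      obtain ⟨j, -, hj⟩ : ∃ j ∈ {i | w i ≤ N}, ∃ᶠ n in atTop, AI x ({i | w i ≤ n} ∩ {j}ᶜ) := by
        by_contra hcon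
        push Not at hcon
        have h1 : ∀ᶠ n in atTop, ∀ j ∈ {i | w i ≤ N}, ¬ AI x ({i | w i ≤ n} ∩ {j}ᶜ) :=
          (eventually_all_finite hLfin).2 fun j hj => hcon j hj
        obtain ⟨n, ⟨j, hj, hj1⟩, hj2⟩ := (key.and_eventually h1).exists
        exact hj2 j hj hj1
      exact ⟨{j}ᶜ, by rw [compl_compl]; exact Set.subsingleton_singleton, ai_of_levels hj⟩
  · exact AlgebraicIndependent.comp h (fun i : {i : I // w i ≤ n} => (i : I)) Subtype.val_injective
  · obtain ⟨S, hS, hSI⟩ := h
    refine ⟨{i | (i : I) ∈ S}, ?_, ?_⟩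
    · intro i hi j hj
      exact Subtype.ext (hS hi hj)
    · exact AlgebraicIndependent.comp hSI
        (fun i : {i : {i : I // w i ≤ n} | (i : I) ∈ S} => (⟨(i.1 : I), i.2⟩ : S)) (fun i j hij => by
          apply Subtype.ext
          apply Subtype.ext
          exact congrArg (fun z : S => (z : I)) hij)

end Pool.Agent.K6.H18.ZT
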