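import Pool.Agent.K6.H18.ZT.Stm

/-! # Piece GRD (by helper29) -/

set_option autoImplicit false

namespace Pool.Agent.K6.H18.ZT

open MvPolynomial Module Filter

namespace GRD

lemma weight_eq {J : Type} (w : J → ℕ) (d : J →₀ ℕ) :
    Finsupp.weight w d = d.sum fun i k => w i * k := by
  rw [Finsupp.weight_apply]
  refine Finsupp.sum_congr fun i _ => ?_
  rw [smul_eq_mul, mul_comm]

lemma prod_eq {J K : Type} [Field K] (w : J → ℕ) (x : J → K) (d : J →₀ ℕ) :
    (d.prod fun i k => (Polynomial.C (x i) * Polynomial.X ^ (w i)) ^ k) =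
      Polynomial.C (d.prod fun i k => x i ^ k) * Polynomial.X ^ (Finsupp.weight w d) := by
  rw [weight_eq]
  unfold Finsupp.prod Finsupp.sum
  rw [map_prod, ← Finset.prod_pow_eq_pow_sum, ← Finset.prod_mul_distrib]
  refine Finset.prod_congr rfl fun i _ => ?_
  change (Polynomial.C (x i) * Polynomial.X ^ w i) ^ d i =
    Polynomial.C (x i ^ d i) * Polynomial.X ^ (w i * d i)
  rw [mul_pow, map_pow, pow_mul]

lemma comp_monomial {J : Type} (w : J → ℕ) (m : ℕ) (d : J →₀ ℕ) (c : ℚ) :
    weightedHomogeneousComponent w m (monomial d c) =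
      if Finsupp.weight w d = m then monomial d c else 0 := by
  classical
  ext e
  rw [coeff_weightedHomogeneousComponent]
  by_cases he : d = e
  · subst he
    split_ifs <;> simp
  · split_ifs <;> simp [coeff_monomial, he]

lemma coeff_aeval {J K : Type} [Field K] [Algebra ℚ K] (w : J → ℕ) (x : J → K)
    (f : MvPolynomial J ℚ) (m : ℕ) :
    (aeval (fun i => Polynomial.C (x i) * Polynomial.X ^ (w i)) f).coeff m =
      aeval x (weightedHomogeneousComponent w m f) := by
  induction f using MvPolynomial.induction_on' with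
  | monomial d c =>
    rw [comp_monomial, aeval_monomial, prod_eq]
    rw [show algebraMap ℚ (Polynomial K) c = Polynomial.C (algebraMap ℚ K c) from rfl, ← mul_assoc,
      ← Polynomial.C_mul, Polynomial.coeff_C_mul_X_pow]
    by_cases h : Finsupp.weight w d = m
    · rw [if_pos h, if_pos h.symm, aeval_monomial]
    · rw [if_neg h, if_neg (fun h' => h h'.symm), map_zero]
  | add p q hp hq =>
    rw [map_add, Polynomial.coeff_add, hp, hq, map_add, map_add]

lemma rename_mem {I : Type} (w : I → ℕ) (n m : ℕ) (f : MvPolynomial {i : I // w i ≤ n} ℚ) :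
    rename (Subtype.val : {i : I // w i ≤ n} → I)
      (weightedHomogeneousComponent (fun i : {i : I // w i ≤ n} => w i) m f) ∈ Hm w m := by
  rw [mem_weightedHomogeneousSubmodule]
  intro d hd
  obtain ⟨u, rfl, hu⟩ := coeff_rename_ne_zero _ _ _ hd
  have h1 := weightedHomogeneousComponent_isWeightedHomogeneous (w := fun i : {i : I // w i ≤ n} => w i)
    m f hu
  rw [weight_eq] at h1 ⊢
  rw [Finsupp.sum_mapDomain_index (by simp) (by intro b k l; rw [mul_add])]
  exact h1

end GRD

open GRD in
theorem t_GRD : S_GRD := by
  intro I w per hF hinj n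
  have : Finite {i : I // w i ≤ n} := hF.2 n
  have hmem : ∀ i : {i : I // w i ≤ n}, per (X (i : I)) ∈ fld w per n := fun i =>
    IntermediateField.subset_adjoin ℚ _ ⟨i, rfl⟩
  set x : {i : I // w i ≤ n} → fld w per n := fun i => ⟨per (X (i : I)), hmem i⟩ with hx
  have hind : AlgebraicIndependent ℚ (fun i : {i : I // w i ≤ n} =>
      (Polynomial.C (x i) * Polynomial.X ^ (w (i : I)) : Polynomial (fld w per n))) := by
    rw [algebraicIndependent_iff]
    intro f hf
    have h1 : ∀ m : ℕ, weightedHomogeneousComponent (fun i : {i : I // w i ≤ n} => w i) m f = 0 := by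
      intro m
      have h2 := coeff_aeval (fun i : {i : I // w i ≤ n} => w (i : I)) x f m
      rw [hf, Polynomial.coeff_zero] at h2
      set g := weightedHomogeneousComponent (fun i : {i : I // w i ≤ n} => w i) m f with hg
      have h3 : per (rename (Subtype.val : {i : I // w i ≤ n} → I) g) = 0 := by
        have e1 : per.comp (rename (Subtype.val : {i : I // w i ≤ n} → I)) =
            (fld w per n).val.comp (aeval x) := by
          ext i
          simp [hx]
        have e2 := congrArg (fun φ => φ g) e1
        simp only [AlgHom.comp_apply] at e2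
        rw [e2]
        exact (congrArg (fld w per n).val h2.symm).trans (map_zero _)
      have h4 := hinj m _ (rename_mem w n m f) h3
      exact rename_injective _ Subtype.val_injective (by rw [h4, map_zero])
    rw [← sum_weightedHomogeneousComponent (fun i : {i : I // w i ≤ n} => w i) f]
    simp [h1]
  have h1 := hind.cardinalMk_le_trdeg
  rw [← Nat.cast_card] at h1
  have h2 : Algebra.trdeg ℚ (Polynomial (fld w per n)) = Algebra.trdeg ℚ (fld w per n) + 1 := by
    rw [← Polynomial.trdeg_of_isDomain (R := fld w per n)]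
    exact (trdeg_add_eq ℚ (fld w per n)).symm
  rw [h2] at h1
  exact h1

end Pool.Agent.K6.H18.ZT
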