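import Pool.Agent.K6.H18.ZT.DIM

/-! The piece INJ. -/

set_option autoImplicit false

namespace Pool.Agent.K6.H18.ZT

open MvPolynomial Module Filter

open DIM in
theorem t_INJ : S_INJ := by
  classical
  intro I w per hfd
  have hrk : ∀ n, finrank ℚ (Z w per n) +
      finrank ℚ (LinearMap.ker (per.toLinearMap ∘ₗ (Hm w n).subtype)) = finrank ℚ (Hm w n) := by
    intro n
    haveI := hfd n
    have h := LinearMap.finrank_range_add_finrank_ker (per.toLinearMap ∘ₗ (Hm w n).subtype)
    rw [LinearMap.range_comp, Submodule.range_subtype] at h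
    exact h
  have h2 : ∀ n, finrank ℚ (Z w per n) = finrank ℚ (Hm w n) ↔ ∀ h ∈ Hm w n, per h = 0 → h = 0 := by
    intro n
    haveI := hfd n
    have h := hrk n
    constructor
    · intro h1 f hf hf0
      have h3 : finrank ℚ (LinearMap.ker (per.toLinearMap ∘ₗ (Hm w n).subtype)) = 0 := by omega
      rw [Submodule.finrank_eq_zero] at h3
      have h4 : (⟨f, hf⟩ : Hm w n) ∈ LinearMap.ker (per.toLinearMap ∘ₗ (Hm w n).subtype) := hf0
      rw [h3, Submodule.mem_bot] at h4
      exact congrArg Subtype.val h4
    · intro h1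
      have h3 : LinearMap.ker (per.toLinearMap ∘ₗ (Hm w n).subtype) = ⊥ := by
        rw [eq_bot_iff]
        rintro ⟨f, hf⟩ hf0
        rw [Submodule.mem_bot]
        exact Subtype.ext (h1 f hf hf0)
      rw [h3, finrank_bot] at h
      omega
  have hdec : ∀ f : MvPolynomial I ℚ, ∃ s : Finset ℕ, f = ∑ n ∈ s, cp w f n := by
    intro f
    letI := MvPolynomial.weightedGradedAlgebra ℚ w
    exact ⟨_, (DirectSum.sum_support_decompose (weightedHomogeneousSubmodule ℚ w) f).symm⟩
  refine ⟨?_, h2, ?_⟩
  · rw [algebraicIndependent_iff_injective_aeval]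
    have : (aeval fun i => per (X i)) = per := (aeval_unique per).symm
    rw [this]
  · constructor
    · intro hi
      refine ⟨fun n => (h2 n).2 fun h _ h0 => hi (by rw [h0, map_zero]), ?_⟩
      rw [iSupIndep_iff_finsetSum_eq_zero_imp_eq_zero]
      intro s v hv hsum i his
      have h1 : ∀ j ∈ s, ∃ f ∈ Hm w j, per f = v j := by
        intro j hj
        obtain ⟨f, hf, hfv⟩ := hv j hj
        exact ⟨f, hf, hfv⟩
      choose! f hf hfv using h1
      have h3 : per (∑ j ∈ s, f j) = 0 := by
        rw [map_sum, ← hsum]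
        exact Finset.sum_congr rfl fun j hj => hfv j hj
      have h4 : ∑ j ∈ s, f j = 0 := hi (by rw [h3, map_zero])
      have h5 : cp w (∑ j ∈ s, f j) i = f i := by
        rw [cp_sum, Finset.sum_eq_single i]
        · exact cp_self (hf i his)
        · intro j hj hji
          exact cp_ne (hf j hj) hji
        · intro h
          exact absurd his h
      have h6 : cp w (0 : MvPolynomial I ℚ) i = 0 := by
        have := cp_sum w (∅ : Finset ℕ) (fun _ => (0 : MvPolynomial I ℚ)) i
        simpa using this
      rw [← hfv i his, ← h5, h4, h6, map_zero]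
    · rintro ⟨h3, h4⟩
      rw [injective_iff_map_eq_zero]
      intro f hf
      obtain ⟨s, hs⟩ := hdec f
      rw [iSupIndep_iff_finsetSum_eq_zero_imp_eq_zero] at h4
      have h5 : ∀ i ∈ s, per (cp w f i) = 0 := by
        refine h4 s (fun i => per (cp w f i)) (fun i _ => ⟨cp w f i, cp_mem w f i, rfl⟩) ?_
        rw [← map_sum, ← hs, hf]
      rw [hs]
      exact Finset.sum_eq_zero fun i hi => (h2 i).1 (h3 i) _ (cp_mem w f i) (h5 i hi)

end Pool.Agent.K6.H18.ZT
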