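import Pool.Agent.K6.H18.ZT.Stm

/-!
# Piece PRI: the kernel is principal
(volunteer piece by helper78 for helper18's call18z)
-/

set_option autoImplicit false

namespace Pool.Agent.K6.H18.ZT

open MvPolynomial Module Filter

namespace PRI

/-- the kernel of an evaluation `R₀[X] → ℝ` which is injective on the factorial ring `R₀` -/
theorem main (R₀ : Type) [CommRing R₀] [IsDomain R₀] [UniqueFactorizationMonoid R₀]
    (φ : R₀ →+* ℝ) (hφ : Function.Injective φ) (α : ℝ)
    (hne : ¬ Function.Injective (Polynomial.eval₂RingHom φ α)) :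
    ∃ g : Polynomial R₀, g ≠ 0 ∧ ∀ h, Polynomial.eval₂RingHom φ α h = 0 ↔ g ∣ h := by
  set E := Polynomial.eval₂RingHom φ α with hE
  have hker : RingHom.ker E ≠ ⊥ := fun h => hne ((RingHom.injective_iff_ker_eq_bot E).mpr h)
  have hprime : (RingHom.ker E).IsPrime := RingHom.ker_isPrime E
  obtain ⟨g, hgI, hg⟩ := hprime.exists_mem_prime_of_ne_bot hker
  have hg0 : E g = 0 := hgI
  refine ⟨g, hg.ne_zero, fun h => ⟨fun hh => ?_, ?_⟩⟩
  · have hdeg : g.natDegree ≠ 0 := by
      intro hd
      obtain ⟨c, hc⟩ := Polynomial.natDegree_eq_zero.mp hd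
      rw [← hc] at hg0
      have : φ c = 0 := by simpa [hE] using hg0
      have hc0 : c = 0 := hφ (by rw [this, map_zero])
      rw [hc0, Polynomial.C_0] at hc
      exact hg.ne_zero hc.symm
    have hprim : g.IsPrimitive := hg.irreducible.isPrimitive hdeg
    let F := FractionRing R₀
    have hirr : Irreducible (g.map (algebraMap R₀ F)) :=
      hprim.irreducible_iff_irreducible_map_fraction_map.mp hg.irreducible
    -- the extension of `φ` to the fraction field
    let ψ : F →+* ℝ := IsFractionRing.lift (K := F) hφ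
    have hψ : ψ.comp (algebraMap R₀ F) = φ := by
      ext x
      exact IsFractionRing.lift_algebraMap hφ x
    have hEv : ∀ p : Polynomial R₀, Polynomial.eval₂ ψ α (p.map (algebraMap R₀ F)) = E p := by
      intro p
      rw [Polynomial.eval₂_map, hψ]
      rfl
    have hdvd : g.map (algebraMap R₀ F) ∣ h.map (algebraMap R₀ F) := by
      by_contra hnd
      have hcop := (hirr.coprime_iff_not_dvd).mpr hnd
      obtain ⟨a, b, hab⟩ := hcop
      have h1 := congrArg (Polynomial.eval₂ ψ α) hab
      rw [Polynomial.eval₂_add, Polynomial.eval₂_mul, Polynomial.eval₂_mul, hEv, hEv, hg0, hh,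
        mul_zero, mul_zero, add_zero, Polynomial.eval₂_one] at h1
      exact zero_ne_one h1
    obtain ⟨k, hk⟩ := hdvd
    have hlift : k ∈ Polynomial.lifts (algebraMap R₀ F) := by
      rw [← hprim.map_mul_mem_lifts_iff, ← hk]
      exact ⟨h, rfl⟩
    obtain ⟨k', hk'⟩ := hlift
    refine ⟨k', Polynomial.map_injective _ (IsFractionRing.injective R₀ F) ?_⟩
    rw [Polynomial.map_mul, hk]
    congr 1
    exact hk'.symm
  · rintro ⟨k, rfl⟩
    rw [map_mul, hg0, zero_mul]

/-- transport along an isomorphism -/
theorem transport {A B : Type} [CommRing A] [CommRing B] (Φ : A ≃+* B) (E : B →+* ℝ) (per : A →+* ℝ)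
    (hEp : ∀ x, E (Φ x) = per x)
    (h : ∃ g : B, g ≠ 0 ∧ ∀ h, E h = 0 ↔ g ∣ h) : ∃ g : A, g ≠ 0 ∧ ∀ h, per h = 0 ↔ g ∣ h := by
  obtain ⟨g, hg0, hg⟩ := h
  refine ⟨Φ.symm g, ?_, fun h => ?_⟩
  · intro h; exact hg0 (by simpa using congrArg Φ h)
  · rw [← hEp, hg]
    constructor
    · intro hd
      have := map_dvd Φ.symm hd
      simpa using this
    · intro hd
      have := map_dvd Φ hd
      simpa using this

end PRI

theorem t_PRI : S_PRI := by
  classical
  intro I per hA hinj
  obtain ⟨S, hS, hind⟩ := hA
  have hper : per = aeval (fun i => per (X i)) := by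
    apply MvPolynomial.algHom_ext
    intro i
    rw [aeval_X]
  have hne : ∃ j, j ∉ S := by
    by_contra hcon
    push Not at hcon
    apply hinj
    have h1 : AlgebraicIndependent ℚ (fun i => per (X i)) :=
      hind.comp (fun i => (⟨i, hcon i⟩ : S)) (fun a b hab => congrArg Subtype.val hab)
    have h2 : Function.Injective (aeval (fun i => per (X i)) : MvPolynomial I ℚ →ₐ[ℚ] ℝ) := h1
    rw [hper]
    exact h2
  obtain ⟨j, hj⟩ := hne
  have hSj : ∀ i, i ∉ S → i = j := fun i hi => hS hi hj
  let e : I ≃ Option S :=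
    { toFun := fun i => if h : i ∈ S then some ⟨i, h⟩ else none
      invFun := fun o => o.elim j (fun s => (s : I))
      left_inv := by
        intro i
        by_cases h : i ∈ S
        · simp [h]
        · simp only [dif_neg h]
          exact (hSj i h).symm
      right_inv := by
        intro o
        cases o with
        | none => simp [hj]
        | some s => simp }
  have he1 : ∀ s : S, e (s : I) = some s := fun s => by simp [e]
  have he2 : e j = none := by simp [e, hj]
  let Φ : MvPolynomial I ℚ ≃ₐ[ℚ] Polynomial (MvPolynomial S ℚ) :=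
    (renameEquiv ℚ e).trans (optionEquivLeft ℚ S)
  let φ : MvPolynomial S ℚ →+* ℝ :=
    (aeval (fun i : S => per (X (i : I))) : MvPolynomial S ℚ →ₐ[ℚ] ℝ).toRingHom
  have hφ : Function.Injective φ := hind
  have hcomp : ∀ x, Polynomial.eval₂RingHom φ (per (X j)) (Φ.toRingEquiv x) = per x := by
    have : (Polynomial.eval₂RingHom φ (per (X j))).comp (Φ.toRingEquiv : _ →+* _) =
        (per : MvPolynomial I ℚ →+* ℝ) := by
      apply MvPolynomial.ringHom_ext
      · intro r
        simp [Φ, φ]
      · intro i
        by_cases h : i ∈ S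
        · have : i = ((⟨i, h⟩ : S) : I) := rfl
          simp only [RingHom.comp_apply, Φ]
          simp [he1 ⟨i, h⟩, φ]
        · have : i = j := hSj i h
          subst this
          simp [Φ, he2]
    intro x
    exact congrArg (fun f : MvPolynomial I ℚ →+* ℝ => f x) this
  apply PRI.transport Φ.toRingEquiv (Polynomial.eval₂RingHom φ (per (X j))) (per : _ →+* ℝ) hcomp
  apply PRI.main
  · exact hφ
  · intro hE
    apply hinj
    intro x y hxy
    apply Φ.toRingEquiv.injective
    apply hE
    rw [hcomp, hcomp]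
    exact hxy

end Pool.Agent.K6.H18.ZT
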