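import Pool.Agent.K6.H18.ZT.Main
import Pool.Agent.K6.H18.ZT.CNT
import Pool.Agent.K6.H18.ZT.GLO
import Pool.Agent.K6.H18.ZT.PRI
import Pool.Agent.K6.H18.ZT.FAC
import Pool.Agent.K6.H18.ZT.FD
import Pool.Agent.K6.H18.ZT.DIM
import Pool.Agent.K6.H18.ZT.CONV
import Pool.Agent.K6.H18.ZT.ALM
import Pool.Agent.K6.H18.ZT.GRD
import Pool.Agent.K6.H18.ZT.INJ
import Pool.Agent.K6.H18.ZT.GEN

/-! All pieces together. -/

set_option autoImplicit false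

namespace Pool.Agent.K6.H18.ZT

theorem pieces : Pieces :=
  ⟨t_CNT, t_GLO, t_PRI, t_FAC, t_FD, t_DIM, t_CON, t_ALM, t_GRD, t_INJ, t_GEN⟩

end Pool.Agent.K6.H18.ZT
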