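import Pool.Agent.K6.H18.ZT.Stm

/-!
# Zagier's dimension conjecture and transcendence degrees: assembly
-/

set_option autoImplicit false

namespace Pool.Agent.K6.H18.ZT

open MvPolynomial Module Filter

/-- All pieces. -/
structure Pieces : Prop where
  cnt : S_CNT
  glo : S_GLO
  pri : S_PRI
  fac : S_FAC
  fd : S_FD
  dim : S_DIM
  con : S_CON
  alm : S_ALM
  grd : S_GRD
  inj : S_INJ
  gen : S_GEN

variable {I : Type} {w : I → ℕ} {per : MvPolynomial I ℚ →ₐ[ℚ] ℝ}

theorem levels (hC : S_CNT) (hw : Fin' w) (n : ℕ) :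
    Algebra.trdeg ℚ (fld w per n) ≤ (num w n : Cardinal) ∧
    ((num w n : Cardinal) ≤ Algebra.trdeg ℚ (fld w per n) ↔
      AlgebraicIndependent ℚ (fun i : {i : I // w i ≤ n} => per (X (i : I)))) ∧
    ((num w n : Cardinal) ≤ Algebra.trdeg ℚ (fld w per n) + 1 ↔
      Almost (fun i : {i : I // w i ≤ n} => per (X (i : I)))) := by
  have := hw.2 n
  exact hC _ _

theorem tfae_all (P : Pieces) (hw : Fin' w) : List.TFAE [
    (∀ n, finrank ℚ (Z w per n) = finrank ℚ (Hm w n)) ∧ iSupIndep (Z w per),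
    ∀ n, Algebra.trdeg ℚ (fld w per n) = num w n,
    ∃ᶠ n in atTop, Algebra.trdeg ℚ (fld w per n) = num w n] := by
  have hfd := (P.fd I w hw).1
  have hinj := P.inj I w per hfd
  have hglo := P.glo I w (fun i => per (X i)) hw.2
  tfae_have 1 → 2 := fun h n => by
    have h1 := hinj.1.1 (hinj.2.2.2 h)
    exact le_antisymm (levels P.cnt hw n).1 ((levels P.cnt hw n).2.1.2 (hglo.2.2.1 h1 n))
  tfae_have 2 → 3 := fun h => Frequently.of_forall h
  tfae_have 3 → 1 := fun h => by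
    have h1 := hglo.1 (h.mono fun n hn => (levels P.cnt hw n).2.1.1 hn.symm.le)
    exact hinj.2.2.1 (hinj.1.2 h1)
  tfae_finish

theorem tfae_one (P : Pieces) (hw : Fin' w) : List.TFAE [
    (∀ n, finrank ℚ (Z w per n) = finrank ℚ (Hm w n)) ∨
      ∃ m, OneRelation w per m ∧ iSupIndep (Z w per),
    ∀ n, (num w n : Cardinal) ≤ Algebra.trdeg ℚ (fld w per n) + 1,
    ∃ᶠ n in atTop, (num w n : Cardinal) ≤ Algebra.trdeg ℚ (fld w per n) + 1] := by
  obtain ⟨hfd, h0⟩ := P.fd I w hw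
  have hinj := P.inj I w per hfd
  have hglo := P.glo I w (fun i => per (X i)) hw.2
  tfae_have 1 → 2 := fun h => by
    rcases h with h | ⟨m, h1, h2⟩
    · exact P.grd I w per hw fun n => (hinj.2.1 n).1 (h n)
    · obtain ⟨g, hg, hg'⟩ := P.con I w per hfd h0 m h1 h2
      exact fun n => (levels P.cnt hw n).2.2.2 (hglo.2.2.2 (P.alm I per g hg hg') n)
  tfae_have 2 → 3 := fun h => Frequently.of_forall h
  tfae_have 3 → 1 := fun h => by
    have h1 := hglo.2.1 (h.mono fun n hn => (levels P.cnt hw n).2.2.1 hn)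
    by_cases hi : ∀ n, finrank ℚ (Z w per n) = finrank ℚ (Hm w n)
    · exact Or.inl hi
    right
    push Not at hi
    obtain ⟨n, hn⟩ := hi
    have hn' : ¬ ∀ h ∈ Hm w n, per h = 0 → h = 0 := fun hh => hn ((hinj.2.1 n).2 hh)
    push Not at hn'
    obtain ⟨f, hf, hf0, hfne⟩ := hn'
    have hni : ¬ Function.Injective per := fun hi => hfne (hi (by rw [hf0, map_zero]))
    obtain ⟨g, hg, hg'⟩ := P.pri I per h1 hni
    obtain ⟨k, rfl⟩ := (hg' f).1 hf0
    obtain ⟨m, hm⟩ := P.fac I w g k n hfne ((mem_weightedHomogeneousSubmodule ℚ w n _).1 hf)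
    exact ⟨m, P.dim I w per hfd g m hg hm hg'⟩
  tfae_finish

theorem eventually_one (P : Pieces) (hw : Fin' w)
    (h : ∀ n, (num w n : Cardinal) ≤ Algebra.trdeg ℚ (fld w per n) + 1)
    (h' : ¬ ∃ᶠ n in atTop, Algebra.trdeg ℚ (fld w per n) = num w n) :
    ∀ᶠ n in atTop, Algebra.trdeg ℚ (fld w per n) + 1 = num w n := by
  rw [not_frequently] at h'
  refine h'.mono fun n hn => ?_
  have h3 := (levels (per := per) P.cnt hw n).1
  have h4 := h n
  obtain ⟨t, ht⟩ := Cardinal.lt_aleph0.1 (lt_of_le_of_lt h3 Cardinal.natCast_lt_aleph0)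
  rw [ht] at hn h3 h4 ⊢
  norm_cast at hn h3 h4 ⊢
  omega

/-- the case of the defect one -/
theorem tfae_defect (P : Pieces) (hw : Fin' w) : List.TFAE [
    ((∀ n, finrank ℚ (Z w per n) = finrank ℚ (Hm w n)) ∧ ¬ iSupIndep (Z w per)) ∨
      ∃ m, OneRelation w per m ∧ iSupIndep (Z w per),
    ∀ᶠ n in atTop, Algebra.trdeg ℚ (fld w per n) + 1 = num w n,
    ∃ᶠ n in atTop, Algebra.trdeg ℚ (fld w per n) + 1 = num w n] := by
  have t0 := (tfae_all (per := per) P hw).out 0 2
  have t01 := (tfae_all (per := per) P hw).out 0 1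
  have t1 := (tfae_one (per := per) P hw).out 0 1
  have t2 := (tfae_one (per := per) P hw).out 0 2
  have h0 := (P.fd I w hw).2
  tfae_have 1 → 2 := fun h => by
    rcases h with ⟨h1, h2⟩ | ⟨m, h1, h2⟩
    · exact eventually_one P hw (t1.1 (Or.inl h1)) fun h3 => h2 (t0.2 h3).2
    · refine eventually_one P hw (t1.1 (Or.inr ⟨m, h1, h2⟩)) fun h3 => ?_
      have h4 := (t0.2 h3).1 m
      have h5 := h1.2 0
      rw [add_zero, h0, h4] at h5
      omega
  tfae_have 2 → 3 := fun h => h.frequently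
  tfae_have 3 → 1 := fun h => by
    rcases t2.2 (h.mono fun n hn => hn.symm.le) with h1 | h1
    · left
      refine ⟨h1, fun h2 => ?_⟩
      have h3 := t01.1 ⟨h1, h2⟩
      obtain ⟨n, hn⟩ := h.exists
      rw [h3 n] at hn
      norm_cast at hn
      omega
    · exact Or.inr h1
  tfae_finish

end Pool.Agent.K6.H18.ZT
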