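import Mathlib

/-!
# Zagier's dimension conjecture and transcendence degrees: statements of the pieces

`per` is a homomorphism from a polynomial ring, in any number of variables `X i` of weights
`w i ≥ 1`, to `ℝ`. In the case in point the polynomial ring is the algebra of the motivic multiple
zeta values.
-/

set_option autoImplicit false

namespace Pool.Agent.K6.H18.ZT

open MvPolynomial Module Filter

section
variable {I : Type}

/-- the polynomials which are homogeneous of weight `n` -/
noncomputable abbrev Hm (w : I → ℕ) (n : ℕ) : Submodule ℚ (MvPolynomial I ℚ) :=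
  weightedHomogeneousSubmodule ℚ w n

/-- their values -/
noncomputable def Z (w : I → ℕ) (per : MvPolynomial I ℚ →ₐ[ℚ] ℝ) (n : ℕ) : Submodule ℚ ℝ :=
  (Hm w n).map per.toLinearMap

/-- the field generated by the values of the variables of weight at most `n` -/
noncomputable def fld (w : I → ℕ) (per : MvPolynomial I ℚ →ₐ[ℚ] ℝ) (n : ℕ) :
    IntermediateField ℚ ℝ :=
  IntermediateField.adjoin ℚ (Set.range fun i : {i : I // w i ≤ n} => per (X (i : I)))

/-- the number of the variables of weight at most `n` -/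
noncomputable def num (w : I → ℕ) (n : ℕ) : ℕ := Nat.card {i : I // w i ≤ n}

/-- all but at most one of the numbers `x i` are algebraically independent -/
def Almost {J : Type} (x : J → ℝ) : Prop :=
  ∃ S : Set J, Sᶜ.Subsingleton ∧ AlgebraicIndependent ℚ (fun i : S => x (i : J))

/-- the weights are positive, and there are finitely many variables of each weight -/
def Fin' (w : I → ℕ) : Prop := (∀ i, 1 ≤ w i) ∧ ∀ n, Finite {i : I // w i ≤ n}

/-- the dimensions of the values are the largest possible up to one relation of weight `m` -/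
def OneRelation (w : I → ℕ) (per : MvPolynomial I ℚ →ₐ[ℚ] ℝ) (m : ℕ) : Prop :=
  (∀ n, n < m → finrank ℚ (Z w per n) = finrank ℚ (Hm w n)) ∧
    ∀ n, finrank ℚ (Z w per (m + n)) + finrank ℚ (Hm w n) = finrank ℚ (Hm w (m + n))

end

/-- CNT: transcendence degree and algebraic independence of a finite family. -/
def S_CNT : Prop := ∀ (J : Type) [Finite J] (x : J → ℝ),
  Algebra.trdeg ℚ (IntermediateField.adjoin ℚ (Set.range x)) ≤ (Nat.card J : Cardinal) ∧
  ((Nat.card J : Cardinal) ≤ Algebra.trdeg ℚ (IntermediateField.adjoin ℚ (Set.range x)) ↔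
    AlgebraicIndependent ℚ x) ∧
  ((Nat.card J : Cardinal) ≤ Algebra.trdeg ℚ (IntermediateField.adjoin ℚ (Set.range x)) + 1 ↔
    Almost x)

/-- GLO: from the finite levels to all variables (a set filtered by finite subsets). -/
def S_GLO : Prop := ∀ (I : Type) (w : I → ℕ) (x : I → ℝ), (∀ n, Finite {i : I // w i ≤ n}) →
  ((∃ᶠ n in atTop, AlgebraicIndependent ℚ (fun i : {i : I // w i ≤ n} => x (i : I))) →
    AlgebraicIndependent ℚ x) ∧
  ((∃ᶠ n in atTop, Almost (fun i : {i : I // w i ≤ n} => x (i : I))) → Almost x) ∧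
  (AlgebraicIndependent ℚ x → ∀ n, AlgebraicIndependent ℚ (fun i : {i : I // w i ≤ n} => x (i : I))) ∧
  (Almost x → ∀ n, Almost (fun i : {i : I // w i ≤ n} => x (i : I)))

/-- PRI: the kernel is principal. -/
def S_PRI : Prop := ∀ (I : Type) (per : MvPolynomial I ℚ →ₐ[ℚ] ℝ),
  Almost (fun i => per (X i)) → ¬ Function.Injective per →
    ∃ g : MvPolynomial I ℚ, g ≠ 0 ∧ ∀ h, per h = 0 ↔ g ∣ h

/-- FAC: factors of homogeneous polynomials are homogeneous. -/
def S_FAC : Prop := ∀ (I : Type) (w : I → ℕ) (g h : MvPolynomial I ℚ) (n : ℕ), g * h ≠ 0 →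
  IsWeightedHomogeneous w (g * h) n → ∃ m, IsWeightedHomogeneous w g m

/-- FD: the spaces of homogeneous polynomials are finite-dimensional, the one of weight zero has
dimension one. -/
def S_FD : Prop := ∀ (I : Type) (w : I → ℕ), Fin' w →
  (∀ n, FiniteDimensional ℚ (Hm w n)) ∧ finrank ℚ (Hm w 0) = 1

/-- DIM: the dimensions, if the kernel is generated by one homogeneous element. -/
def S_DIM : Prop := ∀ (I : Type) (w : I → ℕ) (per : MvPolynomial I ℚ →ₐ[ℚ] ℝ),
  (∀ n, FiniteDimensional ℚ (Hm w n)) → ∀ (g : MvPolynomial I ℚ) (m : ℕ), g ≠ 0 →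
    IsWeightedHomogeneous w g m → (∀ h, per h = 0 ↔ g ∣ h) →
      OneRelation w per m ∧ iSupIndep (Z w per)

/-- CON: the converse. -/
def S_CON : Prop := ∀ (I : Type) (w : I → ℕ) (per : MvPolynomial I ℚ →ₐ[ℚ] ℝ),
  (∀ n, FiniteDimensional ℚ (Hm w n)) → finrank ℚ (Hm w 0) = 1 → ∀ m : ℕ,
    OneRelation w per m → iSupIndep (Z w per) →
      ∃ g : MvPolynomial I ℚ, g ≠ 0 ∧ ∀ h, per h = 0 ↔ g ∣ h

/-- ALM: if the kernel is principal, all but at most one of the values are independent. -/
def S_ALM : Prop := ∀ (I : Type) (per : MvPolynomial I ℚ →ₐ[ℚ] ℝ) (g : MvPolynomial I ℚ), g ≠ 0 →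
  (∀ h, per h = 0 ↔ g ∣ h) → Almost (fun i => per (X i))

/-- GRD: if `per` is injective on the homogeneous polynomials of each weight, then all but at most
one of the values are independent at each level. -/
def S_GRD : Prop := ∀ (I : Type) (w : I → ℕ) (per : MvPolynomial I ℚ →ₐ[ℚ] ℝ), Fin' w →
  (∀ n, ∀ h ∈ Hm w n, per h = 0 → h = 0) →
    ∀ n, (num w n : Cardinal) ≤ Algebra.trdeg ℚ (fld w per n) + 1

/-- INJ: injectivity, independence, dimensions. -/
def S_INJ : Prop := ∀ (I : Type) (w : I → ℕ) (per : MvPolynomial I ℚ →ₐ[ℚ] ℝ),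
  (∀ n, FiniteDimensional ℚ (Hm w n)) →
  (Function.Injective per ↔ AlgebraicIndependent ℚ (fun i => per (X i))) ∧
  (∀ n, finrank ℚ (Z w per n) = finrank ℚ (Hm w n) ↔ ∀ h ∈ Hm w n, per h = 0 → h = 0) ∧
  (Function.Injective per ↔
    (∀ n, finrank ℚ (Z w per n) = finrank ℚ (Hm w n)) ∧ iSupIndep (Z w per))

/-- GEN: the field generated by the spaces `Z m`, `m ≤ n`, is the field generated by the values of
the variables. -/
def S_GEN : Prop := ∀ (I : Type) (w : I → ℕ) (per : MvPolynomial I ℚ →ₐ[ℚ] ℝ), Fin' w → ∀ n : ℕ,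
  IntermediateField.adjoin ℚ {x : ℝ | ∃ m ≤ n, x ∈ Z w per m} = fld w per n

end Pool.Agent.K6.H18.ZT
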